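import Pool.Agent.Y124.TD.Ap3

/-!
# Periods of arbitrary tuples of fibres in short windows

Let `E_t : y² = x³ + a(t) x + b(t)` be a family of elliptic curves with nonconstant `j`-invariant, where `a`, `b` are
polynomials with rational coefficients.
-/

set_option autoImplicit false

namespace Pool.Agent.Results.MP_57341d_ag.AllTuplesInWindows

/-- For `v² = r - p` and `(q - p) / (r - p)` not in `[1, ∞)` this is the integral of `x ^ k dx / y` over the cycle of
`y² = (x - p)(x - q)(x - r)` around the segment from `p` to `q` (substitute `x = p + (q - p) sin² θ`). -/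
noncomputable def per (p q v : ℂ) (k : ℕ) : ℂ :=
  4 / v * ∫ θ in (0 : ℝ)..(Real.pi / 2), (p + (q - p) * (Real.sin θ : ℂ) ^ 2) ^ k *
    (1 - (q - p) / v ^ 2 * (Real.sin θ : ℂ) ^ 2) ^ (-(1 / 2) : ℂ)

/-- For the curve `y² = (x - e₀)(x - e₁)(x - e₂)` and a square root `v` of `e₁ - e₀`, these are the integrals of `dx / y`
and `x dx / y` (the columns) over the cycles around the segments from `e₀` to `e₂` and from `e₁` to `e₂` (the rows), which
form a basis of the homology. -/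
noncomputable def periodMatrix (e : Fin 3 → ℂ) (v : ℂ) : Matrix (Fin 2) (Fin 2) ℂ :=
  !![per (e 0) (e 2) v 0, per (e 0) (e 2) v 1; per (e 1) (e 2) (-Complex.I * v) 0, per (e 1) (e 2) (-Complex.I * v) 1]

/-- `A` is a period matrix of the elliptic curve `y² = x³ + a x + b`. -/
def IsPeriodMatrix (a b : ℂ) (A : Matrix (Fin 2) (Fin 2) ℂ) : Prop :=
  ∃ (e : Fin 3 → ℂ) (v : ℂ), (∀ x : ℂ, x ^ 3 + a * x + b = (x - e 0) * (x - e 1) * (x - e 2)) ∧ v ^ 2 = e 1 - e 0 ∧
    (e 2 - e 0) / (e 1 - e 0) ∈ Complex.slitPlane ∧ 1 - (e 2 - e 0) / (e 1 - e 0) ∈ Complex.slitPlane ∧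
    A = periodMatrix e v

theorem per_zero (p q v : ℂ) : per p q v 0 = 4 / v * Y124.ellI (-(1 / 2)) ((q - p) / v ^ 2) := by
  rw [per, Y124.ellI]
  congr 1
  refine intervalIntegral.integral_congr fun θ _ => ?_
  simp only [pow_zero, one_mul]

theorem per_one (p q v : ℂ) (hv : v ≠ 0) (hD : 1 - (q - p) / v ^ 2 ∈ Complex.slitPlane) : per p q v 1 =
    4 / v * (p * Y124.ellI (-(1 / 2)) ((q - p) / v ^ 2) + v ^ 2 * (Y124.ellI (-(1 / 2)) ((q - p) / v ^ 2) -
      Y124.ellI (1 / 2) ((q - p) / v ^ 2))) := by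
  set m := (q - p) / v ^ 2 with hm
  have hqp : q - p = m * v ^ 2 := by
    rw [hm, div_mul_cancel₀ _ (pow_ne_zero _ hv)]
  have hz : ∀ θ : ℝ, 1 - m * (Real.sin θ : ℂ) ^ 2 ∈ Complex.slitPlane := fun θ => Y124.one_sub_mem hD θ
  have hci : ∀ s : ℂ, IntervalIntegrable (fun θ : ℝ => (1 - m * (Real.sin θ : ℂ) ^ 2) ^ s) MeasureTheory.volume 0
      (Real.pi / 2) := by
    intro s
    apply Continuous.intervalIntegrable
    have h1 : Continuous fun θ : ℝ => 1 - m * (Real.sin θ : ℂ) ^ 2 := by fun_prop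
    exact Continuous.cpow h1 continuous_const fun θ => hz θ
  rw [per, Y124.ellI, Y124.ellI]
  congr 1
  rw [← intervalIntegral.integral_sub (hci _) (hci _), ← intervalIntegral.integral_const_mul,
    ← intervalIntegral.integral_const_mul, ← intervalIntegral.integral_add ((hci _).const_mul _)
    (((hci _).sub (hci _)).const_mul _)]
  refine intervalIntegral.integral_congr fun θ _ => ?_
  simp only [pow_one]
  set z := 1 - m * (Real.sin θ : ℂ) ^ 2 with hzz
  have hz0 : z ≠ 0 := Complex.slitPlane_ne_zero (hz θ)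
  have h2 : z ^ (1 / 2 : ℂ) = z ^ (-(1 / 2) : ℂ) * z := by
    have h3 := Complex.cpow_add (-(1 / 2) : ℂ) 1 hz0
    rw [Complex.cpow_one] at h3
    rw [← h3]
    congr 1
    norm_num
  rw [h2, hqp]
  have h4 : m * v ^ 2 * (Real.sin θ : ℂ) ^ 2 = v ^ 2 * (1 - z) := by
    rw [hzz]
    ring
  rw [h4]
  ring

/-- the entries of the period matrix -/
theorem matrix_eq (e : Fin 3 → ℂ) (v : ℂ) (h01 : e 0 ≠ e 1) (hs : e 0 + e 1 + e 2 = 0) (hv : v ^ 2 = e 1 - e 0)
    (hD : (e 2 - e 0) / (e 1 - e 0) ∈ Y124.Dom) (i j : Fin 2) :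
    ![Y124.GE.row ((e 2 - e 0) / (e 1 - e 0)) v, Y124.GE.row (1 - (e 2 - e 0) / (e 1 - e 0)) (-Complex.I * v)] i j =
      periodMatrix e v i j := by
  have hne : e 1 - e 0 ≠ 0 := sub_ne_zero.2 (Ne.symm h01)
  have hv0 : v ≠ 0 := by
    intro h0
    rw [h0] at hv
    exact hne (by rw [← hv]; ring)
  have hI2 : (-Complex.I * v) ^ 2 = -v ^ 2 := by
    rw [mul_pow, neg_sq, Complex.I_sq]
    ring
  have hIv0 : -Complex.I * v ≠ 0 := mul_ne_zero (neg_ne_zero.2 Complex.I_ne_zero) hv0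
  have hl2 : (e 2 - e 1) / (-Complex.I * v) ^ 2 = 1 - (e 2 - e 0) / (e 1 - e 0) := by
    rw [hI2, hv]
    field_simp
    ring
  have hl1 : (e 2 - e 0) / v ^ 2 = (e 2 - e 0) / (e 1 - e 0) := by rw [hv]
  have he0 : e 0 = -(v ^ 2 * (1 + (e 2 - e 0) / (e 1 - e 0)) / 3) := by
    rw [hv]
    field_simp
    linear_combination (1 : ℂ) * hs
  have he1 : e 1 = -((-Complex.I * v) ^ 2 * (1 + (1 - (e 2 - e 0) / (e 1 - e 0))) / 3) := by
    rw [hI2, hv]
    field_simp
    linear_combination (1 : ℂ) * hs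
  have k01 := per_one (e 0) (e 2) v hv0 (by rw [hl1]; exact hD.2)
  have k11 := per_one (e 1) (e 2) (-Complex.I * v) hIv0 (by
    rw [hl2]
    have : 1 - (1 - (e 2 - e 0) / (e 1 - e 0)) = (e 2 - e 0) / (e 1 - e 0) := by ring
    rw [this]
    exact hD.1)
  rw [hl1] at k01
  rw [hl2] at k11
  fin_cases i <;> fin_cases j
  · show 4 / v * Y124.ellI (-(1 / 2)) ((e 2 - e 0) / (e 1 - e 0)) = per (e 0) (e 2) v 0
    rw [per_zero, hl1]
  · show 4 / v * (-(v ^ 2 * (1 + (e 2 - e 0) / (e 1 - e 0)) / 3) * Y124.ellI (-(1 / 2)) ((e 2 - e 0) / (e 1 - e 0)) + v ^ 2 *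
      (Y124.ellI (-(1 / 2)) ((e 2 - e 0) / (e 1 - e 0)) - Y124.ellI (1 / 2) ((e 2 - e 0) / (e 1 - e 0)))) = per (e 0) (e 2) v 1
    rw [k01, ← he0]
  · show 4 / (-Complex.I * v) * Y124.ellI (-(1 / 2)) (1 - (e 2 - e 0) / (e 1 - e 0)) = per (e 1) (e 2) (-Complex.I * v) 0
    rw [per_zero, hl2]
  · show 4 / (-Complex.I * v) * (-((-Complex.I * v) ^ 2 * (1 + (1 - (e 2 - e 0) / (e 1 - e 0))) / 3) *
      Y124.ellI (-(1 / 2)) (1 - (e 2 - e 0) / (e 1 - e 0)) + (-Complex.I * v) ^ 2 *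
      (Y124.ellI (-(1 / 2)) (1 - (e 2 - e 0) / (e 1 - e 0)) - Y124.ellI (1 / 2) (1 - (e 2 - e 0) / (e 1 - e 0)))) =
        per (e 1) (e 2) (-Complex.I * v) 1
    rw [k11, ← he1]

/-- the entries of a matrix are in the span of the entries of its products with invertible matrices -/
theorem mem_of_mul {K : IntermediateField ℚ ℂ} {W : Submodule K ℂ} {R S : Matrix (Fin 2) (Fin 2) K} (hR : R.det ≠ 0)
    (hS : S.det ≠ 0) {A : Matrix (Fin 2) (Fin 2) ℂ}
    (h : ∀ i j, (R.map (algebraMap K ℂ) * A * S.map (algebraMap K ℂ)) i j ∈ W) (i j : Fin 2) : A i j ∈ W := by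
  have h1 : A = (R⁻¹).map (algebraMap K ℂ) * (R.map (algebraMap K ℂ) * A * S.map (algebraMap K ℂ)) * (S⁻¹).map (algebraMap K ℂ) := by
    have hR' : (R⁻¹).map (algebraMap K ℂ) * R.map (algebraMap K ℂ) = 1 := by
      rw [← Matrix.map_mul, Matrix.nonsing_inv_mul _ (Ne.isUnit hR)]
      exact Matrix.map_one _ (map_zero _) (map_one _)
    have hS' : S.map (algebraMap K ℂ) * (S⁻¹).map (algebraMap K ℂ) = 1 := by
      rw [← Matrix.map_mul, Matrix.mul_nonsing_inv _ (Ne.isUnit hS)]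
      exact Matrix.map_one _ (map_zero _) (map_one _)
    calc A = ((R⁻¹).map (algebraMap K ℂ) * R.map (algebraMap K ℂ)) * A * (S.map (algebraMap K ℂ) * (S⁻¹).map (algebraMap K ℂ)) := by
          rw [hR', hS', one_mul, mul_one]
      _ = _ := by simp only [Matrix.mul_assoc]
  rw [h1, Matrix.mul_apply]
  refine Submodule.sum_mem _ fun m _ => ?_
  rw [Matrix.mul_apply, Finset.sum_mul]
  refine Submodule.sum_mem _ fun m' _ => ?_
  have h2 : (R⁻¹).map (algebraMap K ℂ) i m' * (R.map (algebraMap K ℂ) * A * S.map (algebraMap K ℂ)) m' m *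
      (S⁻¹).map (algebraMap K ℂ) m j = ((R⁻¹) i m' * (S⁻¹) m j) • (R.map (algebraMap K ℂ) * A * S.map (algebraMap K ℂ)) m' m := by
    rw [Algebra.smul_def, map_mul]
    simp only [Matrix.map_apply]
    ring
  rw [h2]
  exact Submodule.smul_mem _ _ (h _ _)

/-- Let `a`, `b` be polynomials with rational coefficients such that `b ≠ 0` and `a³` is not a constant multiple of `b²`.
There are `R₀` and period matrices `A t` of the curves `y² = x³ + a(t) x + b(t)` for the integers `t ≥ R₀` such that for all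
`k`, `δ`, `D` there are `c > 0` and `N₀` with the following property. Let `N ≥ N₀`, let `t_1, …, t_k` be ANY integers in
`[N, N + N ^ c]` with pairwise distances at least `R₀`, let `K` be a number field of degree at most `D` and let `R_j`, `S_j`
be invertible matrices over `K`. Then among the `4 k` entries of the matrices `R_j A(t_j) S_j` there are `3 (k - 1)` which
satisfy no nontrivial polynomial relation with coefficients in `K` of degree at most `δ` in each variable. -/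
theorem result (a b : Polynomial ℚ) (hb : b ≠ 0) (hab : ∀ c : ℚ, a ^ 3 ≠ Polynomial.C c * b ^ 2) :
    ∃ (R₀ : ℕ) (A : ℕ → Matrix (Fin 2) (Fin 2) ℂ),
      (∀ t : ℕ, R₀ ≤ t → IsPeriodMatrix ((a.eval (t : ℚ) : ℚ) : ℂ) ((b.eval (t : ℚ) : ℚ) : ℂ) (A t)) ∧
      ∀ k δ D : ℕ, ∃ (c : ℝ) (N₀ : ℕ), 0 < c ∧ ∀ N : ℕ, N₀ ≤ N → ∀ t : Fin k → ℕ,
        (∀ j, N ≤ t j ∧ (t j : ℝ) ≤ N + (N : ℝ) ^ c) → (∀ i j, i ≠ j → t i + R₀ ≤ t j ∨ t j + R₀ ≤ t i) →
          ∀ (K : IntermediateField ℚ ℂ) [FiniteDimensional ℚ K], Module.finrank ℚ K ≤ D →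
            ∀ R S : Fin k → Matrix (Fin 2) (Fin 2) K, (∀ j, (R j).det ≠ 0) → (∀ j, (S j).det ≠ 0) →
              ∃ σ : Fin (3 * (k - 1)) → Fin k × Fin 2 × Fin 2, Function.Injective σ ∧
                ∀ P : MvPolynomial (Fin (3 * (k - 1))) K, P ≠ 0 → (∀ i, P.degreeOf i ≤ δ) →
                  MvPolynomial.aeval (fun i => ((R (σ i).1).map (algebraMap K ℂ) * A (t (σ i).1) *
                    (S (σ i).1).map (algebraMap K ℂ)) (σ i).2.1 (σ i).2.2) P ≠ 0 := by
  classical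
  obtain ⟨R₀, x, hx, H⟩ := Y124.TD.td_main a b hb hab
  have hm : ∀ t, R₀ ≤ t → ∀ i j, Y124.TD.PM (x t) i j = periodMatrix (x t).2.1 (x t).2.2 i j := by
    intro t ht i j
    obtain ⟨h1, h2, h3⟩ := hx t ht
    have h01 : (x t).2.1 0 ≠ (x t).2.1 1 := by
      intro h0
      have h4 := h3.1
      rw [Y124.lam, h0, sub_self, div_zero] at h4
      exact Complex.slitPlane_ne_zero h4 rfl
    exact matrix_eq (x t).2.1 (x t).2.2 h01 (Y124.Cv_sym h2).1 h2.2 h3 i j
  refine ⟨R₀, fun t => periodMatrix (x t).2.1 (x t).2.2, fun t ht => ?_, fun k δ D => ?_⟩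
  · obtain ⟨h1, h2, h3⟩ := hx t ht
    refine ⟨(x t).2.1, (x t).2.2, fun X => ?_, h2.2, h3.1, h3.2, rfl⟩
    have k1 : ∀ p : Polynomial ℚ, (Y124.GE.cp p).eval (x t).1 = ((p.eval (t : ℚ) : ℚ) : ℂ) := by
      intro p
      rw [h1, Y124.GE.cp, Polynomial.eval_map, Polynomial.eval₂_at_natCast]
      rfl
    rw [← k1, ← k1]
    exact h2.1 X
  · obtain ⟨c, N₀, hc, H'⟩ := H k δ D
    refine ⟨c, max N₀ R₀, hc, ?_⟩
    intro N hN t ht hsep K _ hK R S hR hS
    have hNR : ∀ j, R₀ ≤ t j := fun j => ((le_max_right _ _).trans hN).trans (ht j).1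
    obtain ⟨σ, hσ, hLI⟩ := H' N ((le_max_left _ _).trans hN) t ht hsep K hK
      (fun y => ((R y.1).map (algebraMap K ℂ) * periodMatrix (x (t y.1)).2.1 (x (t y.1)).2.2 *
        (S y.1).map (algebraMap K ℂ)) y.2.1 y.2.2) (fun W hW l i j => by
      rw [hm (t l) (hNR l)]
      have h5 : ∀ i j, ((R l).map (algebraMap K ℂ) * periodMatrix (x (t l)).2.1 (x (t l)).2.2 *
        (S l).map (algebraMap K ℂ)) i j ∈ W := fun i j => hW (l, i, j)
      exact mem_of_mul (hR l) (hS l) (A := periodMatrix (x (t l)).2.1 (x (t l)).2.2) h5 i j)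
    exact ⟨σ, hσ, fun P hP hd h0 => hP (hLI.mv P hd h0)⟩

end Pool.Agent.Results.MP_57341d_ag.AllTuplesInWindows
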