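import Pool.Agent.Y124.GE.Fb
import Pool.Agent.Y124.GE.Tor2
import Pool.Agent.Y124.GE.Leg

/-!
# Period relations of products of fibres of arbitrary families of elliptic curves

Let `E_j : y² = x³ + a_j(t) x + b_j(t)` (`j = 1, …, k`) be families of elliptic curves with nonconstant `j`-invariant,
where `a_j`, `b_j` are polynomials with rational coefficients.
-/

set_option autoImplicit false

namespace Pool.Agent.Results.MP_57341d_ag.AlmostAllFibres

/-- For `v² = r - p` and `(q - p) / (r - p)` not in `[1, ∞)` this is the integral of `x ^ k dx / y` over the cycle of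
`y² = (x - p)(x - q)(x - r)` around the segment from `p` to `q` (substitute `x = p + (q - p) sin² θ`). -/
noncomputable def per (p q v : ℂ) (k : ℕ) : ℂ :=
  4 / v * ∫ θ in (0 : ℝ)..(Real.pi / 2), (p + (q - p) * (Real.sin θ : ℂ) ^ 2) ^ k *
    (1 - (q - p) / v ^ 2 * (Real.sin θ : ℂ) ^ 2) ^ (-(1 / 2) : ℂ)

/-- For the curve `y² = (x - e₀)(x - e₁)(x - e₂)` and a square root `v` of `e₁ - e₀`, these are the integrals of `dx / y`
and `x dx / y` (the columns) over the cycles around the segments from `e₀` to `e₂` and from `e₁` to `e₂` (the rows), which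
form a basis of the homology. -/
noncomputable def periodMatrix (e : Fin 3 → ℂ) (v : ℂ) : Matrix (Fin 2) (Fin 2) ℂ :=
  !![per (e 0) (e 2) v 0, per (e 0) (e 2) v 1; per (e 1) (e 2) (-Complex.I * v) 0, per (e 1) (e 2) (-Complex.I * v) 1]

/-- `A` is a period matrix of the elliptic curve `y² = x³ + a x + b`. -/
def IsPeriodMatrix (a b : ℂ) (A : Matrix (Fin 2) (Fin 2) ℂ) : Prop :=
  ∃ (e : Fin 3 → ℂ) (v : ℂ), (∀ x : ℂ, x ^ 3 + a * x + b = (x - e 0) * (x - e 1) * (x - e 2)) ∧ v ^ 2 = e 1 - e 0 ∧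
    (e 2 - e 0) / (e 1 - e 0) ∈ Complex.slitPlane ∧ 1 - (e 2 - e 0) / (e 1 - e 0) ∈ Complex.slitPlane ∧
    A = periodMatrix e v

/-- For all number fields `L` of degree at most `d`: every polynomial relation of degree at most `δ` with coefficients in
`L` between the entries of `A_1, …, A_k` holds for all `k`-tuples of invertible matrices with the same determinant, and
every relation of degree at most `δ` with coefficients in the space `L V` holds for all `k`-tuples of matrices with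
determinant `8 π i`. -/
def OnlyMotivicRelations (δ d : ℕ) (V : Submodule ℚ ℂ) {k : ℕ} (A : Fin k → Matrix (Fin 2) (Fin 2) ℂ) : Prop :=
  ∀ L : IntermediateField ℚ ℂ, FiniteDimensional ℚ L → Module.finrank ℚ L ≤ d →
    (∀ P : MvPolynomial (Fin k × Fin 2 × Fin 2) L, P.totalDegree ≤ δ →
      MvPolynomial.aeval (fun x : Fin k × Fin 2 × Fin 2 => A x.1 x.2.1 x.2.2) P = 0 →
        ∀ g : Fin k → Matrix (Fin 2) (Fin 2) ℂ, (∀ j, (g j).det ≠ 0) → (∀ i j, (g i).det = (g j).det) →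
          MvPolynomial.aeval (fun x : Fin k × Fin 2 × Fin 2 => g x.1 x.2.1 x.2.2) P = 0) ∧
    ∀ P : MvPolynomial (Fin k × Fin 2 × Fin 2) ℂ, P.totalDegree ≤ δ → (∀ s, P.coeff s ∈ Submodule.span L (V : Set ℂ)) →
      MvPolynomial.aeval (fun x : Fin k × Fin 2 × Fin 2 => A x.1 x.2.1 x.2.2) P = 0 →
        ∀ g : Fin k → Matrix (Fin 2) (Fin 2) ℂ, (∀ j, (g j).det = 8 * Real.pi * Complex.I) →
          MvPolynomial.aeval (fun x : Fin k × Fin 2 × Fin 2 => g x.1 x.2.1 x.2.2) P = 0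

/-- The `k`-tuples of integers `x_j < t_j ≤ x_j + N` such that period matrices of the curves
`y² = x³ + a_j(t_j) x + b_j(t_j)` have relations other than those. -/
def Exceptional {k : ℕ} (a b : Fin k → Polynomial ℚ) (δ d : ℕ) (V : Submodule ℚ ℂ) (x : Fin k → ℕ) (N : ℕ) :
    Set (Fin k → ℕ) :=
  {t | (∀ j, x j < t j ∧ t j ≤ x j + N) ∧ ∃ A : Fin k → Matrix (Fin 2) (Fin 2) ℂ,
    (∀ j, IsPeriodMatrix (((a j).eval (t j : ℚ) : ℚ) : ℂ) (((b j).eval (t j : ℚ) : ℚ) : ℂ) (A j)) ∧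
      ¬ OnlyMotivicRelations δ d V A}

/-- every elliptic curve has such a period matrix -/
theorem exists_periodMatrix (a b : ℂ) (h : 4 * a ^ 3 + 27 * b ^ 2 ≠ 0) : ∃ A, IsPeriodMatrix a b A := by
  obtain ⟨r, hr⟩ := Y124.GE.three_roots a b
  have hinj := Y124.GE.ne_of_disc hr h
  have n10 : r 1 - r 0 ≠ 0 := sub_ne_zero.2 fun h => absurd (hinj h) (by decide)
  have n20 : r 2 - r 0 ≠ 0 := sub_ne_zero.2 fun h => absurd (hinj h) (by decide)
  have n21 : r 2 - r 1 ≠ 0 := sub_ne_zero.2 fun h => absurd (hinj h) (by decide)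
  have key : ∀ e : Fin 3 → ℂ, (∀ x : ℂ, x ^ 3 + a * x + b = (x - e 0) * (x - e 1) * (x - e 2)) →
      (e 2 - e 0) / (e 1 - e 0) ∈ Complex.slitPlane → 1 - (e 2 - e 0) / (e 1 - e 0) ∈ Complex.slitPlane →
      ∃ A, IsPeriodMatrix a b A := by
    intro e h1 h2 h3
    obtain ⟨v, hv⟩ := IsAlgClosed.exists_pow_nat_eq (e 1 - e 0) (n := 2) (by norm_num)
    exact ⟨_, e, v, h1, hv, h2, h3, rfl⟩
  have hreal : ∀ x : ℝ, 0 < x → x < 1 → (x : ℂ) ∈ Complex.slitPlane ∧ 1 - (x : ℂ) ∈ Complex.slitPlane := by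
    intro x h0 h1
    refine ⟨Complex.ofReal_mem_slitPlane.2 h0, ?_⟩
    have : 1 - (x : ℂ) = ((1 - x : ℝ) : ℂ) := by push_cast; ring
    rw [this]
    exact Complex.ofReal_mem_slitPlane.2 (by linarith)
  set l := (r 2 - r 0) / (r 1 - r 0) with hl
  have hl20 : r 2 - r 0 = l * (r 1 - r 0) := by rw [hl, div_mul_cancel₀ _ n10]
  by_cases him : l.im = 0
  · have hlr : l = ((l.re : ℝ) : ℂ) := Complex.ext rfl (by rw [him]; simp)
    set x := l.re with hx
    have hx0 : x ≠ 0 := by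
      intro h0
      rw [h0] at hlr
      rw [hlr] at hl20
      exact n20 (by rw [hl20]; simp)
    have hx1 : x ≠ 1 := by
      intro h1
      rw [h1] at hlr
      rw [hlr, Complex.ofReal_one, one_mul] at hl20
      apply n21
      linear_combination hl20
    rcases lt_or_gt_of_ne hx0 with hneg | hpos
    · -- `r 0` is in the middle
      have e1 : (![r 1, r 2, r 0] 2 - ![r 1, r 2, r 0] 0) / (![r 1, r 2, r 0] 1 - ![r 1, r 2, r 0] 0) = (((1 - x)⁻¹ : ℝ) : ℂ) := by
        show (r 0 - r 1) / (r 2 - r 1) = _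
        have h2 : r 2 - r 1 = (l - 1) * (r 1 - r 0) := by linear_combination hl20
        have h3 : l - 1 ≠ 0 := by
          intro h0
          rw [h0, zero_mul] at h2
          exact n21 h2
        have h4 : (1 : ℂ) - x ≠ 0 := by
          rw [← hlr]
          intro h0
          apply h3
          linear_combination -h0
        rw [h2]
        push_cast
        rw [← hlr] at h4 ⊢
        rw [div_eq_iff (mul_ne_zero h3 n10)]
        field_simp
        ring
      obtain ⟨k1, k2⟩ := hreal (1 - x)⁻¹ (by apply inv_pos.2; linarith) (inv_lt_one_of_one_lt₀ (by linarith))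
      refine key ![r 1, r 2, r 0] (fun y => ?_) (by rw [e1]; exact k1) (by rw [e1]; exact k2)
      rw [hr]
      show _ = (y - r 1) * (y - r 2) * (y - r 0)
      ring
    · rcases lt_or_gt_of_ne hx1 with h1 | h1
      · obtain ⟨k1, k2⟩ := hreal x hpos h1
        rw [← hlr] at k1 k2
        exact key r hr k1 k2
      · have e1 : (![r 0, r 2, r 1] 2 - ![r 0, r 2, r 1] 0) / (![r 0, r 2, r 1] 1 - ![r 0, r 2, r 1] 0) = ((x⁻¹ : ℝ) : ℂ) := by
          show (r 1 - r 0) / (r 2 - r 0) = _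
          push_cast
          rw [← hlr, hl, inv_div]
        obtain ⟨k1, k2⟩ := hreal x⁻¹ (inv_pos.2 hpos) (inv_lt_one_of_one_lt₀ h1)
        refine key ![r 0, r 2, r 1] (fun y => ?_) (by rw [e1]; exact k1) (by rw [e1]; exact k2)
        rw [hr]
        show _ = (y - r 0) * (y - r 2) * (y - r 1)
        ring
  · refine key r hr (Complex.mem_slitPlane_iff.2 (Or.inr him)) (Complex.mem_slitPlane_iff.2 (Or.inr ?_))
    rw [Complex.sub_im, Complex.one_im, zero_sub]
    exact neg_ne_zero.2 him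

theorem per_zero (p q v : ℂ) : per p q v 0 = 4 / v * Y124.ellI (-(1 / 2)) ((q - p) / v ^ 2) := by
  rw [per, Y124.ellI]
  congr 1
  refine intervalIntegral.integral_congr fun θ _ => ?_
  simp only [pow_zero, one_mul]

theorem per_one (p q v : ℂ) (hv : v ≠ 0) (hD : 1 - (q - p) / v ^ 2 ∈ Complex.slitPlane) : per p q v 1 =
    4 / v * (p * Y124.ellI (-(1 / 2)) ((q - p) / v ^ 2) + v ^ 2 * (Y124.ellI (-(1 / 2)) ((q - p) / v ^ 2) -
      Y124.ellI (1 / 2) ((q - p) / v ^ 2))) := by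
  set m := (q - p) / v ^ 2 with hm
  have hqp : q - p = m * v ^ 2 := by
    rw [hm, div_mul_cancel₀ _ (pow_ne_zero _ hv)]
  have hz : ∀ θ : ℝ, 1 - m * (Real.sin θ : ℂ) ^ 2 ∈ Complex.slitPlane := fun θ => Y124.one_sub_mem hD θ
  have hci : ∀ s : ℂ, IntervalIntegrable (fun θ : ℝ => (1 - m * (Real.sin θ : ℂ) ^ 2) ^ s) MeasureTheory.volume 0
      (Real.pi / 2) := by
    intro s
    apply Continuous.intervalIntegrable
    have h1 : Continuous fun θ : ℝ => 1 - m * (Real.sin θ : ℂ) ^ 2 := by fun_prop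
    exact Continuous.cpow h1 continuous_const fun θ => hz θ
  rw [per, Y124.ellI, Y124.ellI]
  congr 1
  rw [← intervalIntegral.integral_sub (hci _) (hci _), ← intervalIntegral.integral_const_mul,
    ← intervalIntegral.integral_const_mul, ← intervalIntegral.integral_add ((hci _).const_mul _)
    (((hci _).sub (hci _)).const_mul _)]
  refine intervalIntegral.integral_congr fun θ _ => ?_
  simp only [pow_one]
  set z := 1 - m * (Real.sin θ : ℂ) ^ 2 with hzz
  have hz0 : z ≠ 0 := Complex.slitPlane_ne_zero (hz θ)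
  have h2 : z ^ (1 / 2 : ℂ) = z ^ (-(1 / 2) : ℂ) * z := by
    have h3 := Complex.cpow_add (-(1 / 2) : ℂ) 1 hz0
    rw [Complex.cpow_one] at h3
    rw [← h3]
    congr 1
    norm_num
  rw [h2, hqp]
  have h4 : m * v ^ 2 * (Real.sin θ : ℂ) ^ 2 = v ^ 2 * (1 - z) := by
    rw [hzz]
    ring
  rw [h4]
  ring

/-- the entries of the period matrix and Legendre's relation -/
theorem matrix_eq (e : Fin 3 → ℂ) (v : ℂ) (h01 : e 0 ≠ e 1) (hs : e 0 + e 1 + e 2 = 0) (hv : v ^ 2 = e 1 - e 0)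
    (hD : (e 2 - e 0) / (e 1 - e 0) ∈ Y124.Dom) :
    (∀ i : Fin 3, Y124.pf ((e 2 - e 0) / (e 1 - e 0)) v i = ![periodMatrix e v 0 0, periodMatrix e v 1 0, periodMatrix e v 0 1] i) ∧
      (periodMatrix e v).det = 8 * Real.pi * Complex.I := by
  have hne : e 1 - e 0 ≠ 0 := sub_ne_zero.2 (Ne.symm h01)
  have hv0 : v ≠ 0 := by
    intro h0
    rw [h0] at hv
    exact hne (by rw [← hv]; ring)
  have hI2 : (-Complex.I * v) ^ 2 = -v ^ 2 := by
    rw [mul_pow, neg_sq, Complex.I_sq]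
    ring
  have hIv0 : -Complex.I * v ≠ 0 := mul_ne_zero (neg_ne_zero.2 Complex.I_ne_zero) hv0
  have hl2 : (e 2 - e 1) / (-Complex.I * v) ^ 2 = 1 - (e 2 - e 0) / (e 1 - e 0) := by
    rw [hI2, hv]
    field_simp
    ring
  set l := (e 2 - e 0) / (e 1 - e 0) with hl
  have h00 : per (e 0) (e 2) v 0 = 4 / v * Y124.ellI (-(1 / 2)) l := by
    rw [per_zero, hv]
  have h10 : per (e 1) (e 2) (-Complex.I * v) 0 = 4 * Complex.I / v * Y124.ellI (-(1 / 2)) (1 - l) := by
    rw [per_zero, hl2]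
    congr 1
    field_simp
    rw [Complex.I_sq]
  have h01' : per (e 0) (e 2) v 1 = 4 / v * (e 0 * Y124.ellI (-(1 / 2)) l + v ^ 2 * (Y124.ellI (-(1 / 2)) l - Y124.ellI (1 / 2) l)) := by
    rw [per_one _ _ _ hv0 (by rw [hv]; exact hD.2), hv]
  have h11 : per (e 1) (e 2) (-Complex.I * v) 1 = 4 * Complex.I / v * (e 1 * Y124.ellI (-(1 / 2)) (1 - l) -
      v ^ 2 * (Y124.ellI (-(1 / 2)) (1 - l) - Y124.ellI (1 / 2) (1 - l))) := by
    rw [per_one _ _ _ hIv0 (by
      rw [hl2]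
      have : 1 - (1 - l) = l := by ring
      rw [this]
      exact hD.1), hl2, hI2]
    have h4 : 4 / (-Complex.I * v) = 4 * Complex.I / v := by
      field_simp
      rw [Complex.I_sq]
    rw [h4]
    ring
  constructor
  · intro i
    fin_cases i
    · show 4 / v * Y124.ellI (-(1 / 2)) l = per (e 0) (e 2) v 0
      rw [h00]
    · show 4 * Complex.I / v * Y124.ellI (-(1 / 2)) (1 - l) = per (e 1) (e 2) (-Complex.I * v) 0
      rw [h10]
    · show 4 / v * (-(v ^ 2 * (1 + l) / 3) * Y124.ellI (-(1 / 2)) l + v ^ 2 * (Y124.ellI (-(1 / 2)) l - Y124.ellI (1 / 2) l)) =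
        per (e 0) (e 2) v 1
      rw [h01', hv, hl]
      congr 2
      congr 1
      field_simp
      linear_combination (-1 : ℂ) * hs
  · have hleg := Y124.GE.legendre_C hD
    have hd : (periodMatrix e v).det = per (e 0) (e 2) v 0 * per (e 1) (e 2) (-Complex.I * v) 1 -
        per (e 0) (e 2) v 1 * per (e 1) (e 2) (-Complex.I * v) 0 := by
      rw [Matrix.det_fin_two]
      rfl
    rw [hd, h00, h10, h01', h11]
    have h5 : 4 / v * Y124.ellI (-(1 / 2)) l * (4 * Complex.I / v * (e 1 * Y124.ellI (-(1 / 2)) (1 - l) -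
      v ^ 2 * (Y124.ellI (-(1 / 2)) (1 - l) - Y124.ellI (1 / 2) (1 - l)))) -
        4 / v * (e 0 * Y124.ellI (-(1 / 2)) l + v ^ 2 * (Y124.ellI (-(1 / 2)) l - Y124.ellI (1 / 2) l)) *
          (4 * Complex.I / v * Y124.ellI (-(1 / 2)) (1 - l)) = 16 * Complex.I / v ^ 2 *
        ((e 1 - e 0) * (Y124.ellI (-(1 / 2)) l * Y124.ellI (-(1 / 2)) (1 - l)) - v ^ 2 *
          (2 * (Y124.ellI (-(1 / 2)) l * Y124.ellI (-(1 / 2)) (1 - l)) - Y124.ellI (-(1 / 2)) l * Y124.ellI (1 / 2) (1 - l) -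
            Y124.ellI (1 / 2) l * Y124.ellI (-(1 / 2)) (1 - l))) := by
      field_simp
      ring
    rw [h5, ← hv]
    have h6 : 16 * Complex.I / v ^ 2 *
        (v ^ 2 * (Y124.ellI (-(1 / 2)) l * Y124.ellI (-(1 / 2)) (1 - l)) - v ^ 2 *
          (2 * (Y124.ellI (-(1 / 2)) l * Y124.ellI (-(1 / 2)) (1 - l)) - Y124.ellI (-(1 / 2)) l * Y124.ellI (1 / 2) (1 - l) -
            Y124.ellI (1 / 2) l * Y124.ellI (-(1 / 2)) (1 - l))) = 16 * Complex.I * (Y124.ellI (-(1 / 2)) l * Y124.ellI (1 / 2) (1 - l) +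
          Y124.ellI (1 / 2) l * Y124.ellI (-(1 / 2)) (1 - l) - Y124.ellI (-(1 / 2)) l * Y124.ellI (-(1 / 2)) (1 - l)) := by
      field_simp
      ring
    rw [h6, hleg]
    ring

/-- Let `a_j`, `b_j` be polynomials with rational coefficients such that `b_j ≠ 0` and `a_j³` is not a constant multiple of
`b_j²`. For all `δ`, `D`, `d` there are `c > 0` and `M` such that for all rational vector spaces `V ⊆ ℂ` of dimension at
most `D` and all boxes `∏ (x_j, x_j + N]` at most `M N^(k - 1) ∑_j (1 + N / (x_j + N)^c)` of the `k`-tuples of integers in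
the box are exceptional (for `x = 0` this is at most `2 k M N^(k - c)`). -/
theorem result (k : ℕ) (a b : Fin k → Polynomial ℚ) (hb : ∀ j, b j ≠ 0)
    (hab : ∀ j, ∀ c : ℚ, a j ^ 3 ≠ Polynomial.C c * b j ^ 2) (δ D d : ℕ) : ∃ c M : ℝ, 0 < c ∧ c ≤ 1 ∧
      ∀ (V : Submodule ℚ ℂ) [FiniteDimensional ℚ V], Module.finrank ℚ V ≤ D → ∀ (x : Fin k → ℕ) (N : ℕ), 1 ≤ N →
        (Exceptional a b δ d V x N).Finite ∧
          ((Exceptional a b δ d V x N).ncard : ℝ) ≤ M * (N : ℝ) ^ (k - 1) * ∑ j, (1 + N / ((x j : ℝ) + N) ^ c) := by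
  classical
  set n := 1 + (k + 1) * δ with hn
  obtain ⟨c, M, hc, hc1, -, H⟩ := Y124.GE.fin_mainB k a b hb hab n ((D + 1 + 1 + 1) ^ n) d
  refine ⟨c, M, hc, hc1, fun V _ hV x N hN => ?_⟩
  have hfin : (Exceptional a b δ d V x N).Finite := by
    refine (Set.Finite.pi' (t := fun j : Fin k => Set.Iic (x j + N)) fun _ => Set.finite_Iic _).subset ?_
    intro t ht j
    exact (ht.1 j).2
  refine ⟨hfin, ?_⟩
  have hτ : (8 * Real.pi * Complex.I : ℂ) ≠ 0 :=
    mul_ne_zero (mul_ne_zero (by norm_num) (by exact_mod_cast Real.pi_ne_zero)) Complex.I_ne_zero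
  have hτt : Transcendental ℚ (8 * Real.pi * Complex.I : ℂ) := by
    intro h
    apply Pool.Agent.H340R2.LW.transcendental_pi_complex
    have h1 : (Real.pi : ℂ) = (8 * Real.pi * Complex.I) * (((-(1 / 8) : ℚ) : ℂ) * Complex.I) := by
      have := Complex.I_mul_I
      push_cast
      linear_combination ((Real.pi : ℂ)) * this
    rw [h1]
    exact h.mul (IsAlgebraic.mul (isAlgebraic_algebraMap (-(1 / 8) : ℚ)) Pool.Agent.H340R2.LW.isAlgebraic_I)
  have hf1 : Module.Finite ℚ (V ⊔ Submodule.span ℚ {1} : Submodule ℚ ℂ) := Submodule.finite_sup V _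
  have hV1 : Module.finrank ℚ (V ⊔ Submodule.span ℚ {1} : Submodule ℚ ℂ) ≤ D + 1 := by
    have h3 := Submodule.finrank_add_le_finrank_add_finrank V (Submodule.span ℚ {1})
    have h4 : Module.finrank ℚ (Submodule.span ℚ ({1} : Set ℂ)) ≤ 1 := by
      refine (finrank_span_le_card _).trans ?_
      simp
    omega
  obtain ⟨hf, hdim⟩ := Y124.GE.VT_dim (V ⊔ Submodule.span ℚ {1}) (8 * Real.pi * Complex.I) n hV1
  have h1 := H (Y124.GE.VT (V ⊔ Submodule.span ℚ {1}) (8 * Real.pi * Complex.I) n) hdim x N hN hfin.toFinset fun t ht => by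
    rw [Set.Finite.mem_toFinset] at ht
    obtain ⟨htT, A, hA, hno⟩ := ht
    refine ⟨htT, ?_⟩
    choose e v h1 h2 h3 h4 h5 using hA
    have hev : ∀ j, Y124.Cv (Y124.GE.cp (a j)) (Y124.GE.cp (b j)) (((t j : ℕ) : ℂ), e j, v j) := by
      intro j
      refine ⟨fun x => ?_, h2 j⟩
      have k1 : ∀ p : Polynomial ℚ, (Y124.GE.cp p).eval ((t j : ℕ) : ℂ) = ((p.eval (t j : ℚ) : ℚ) : ℂ) := by
        intro p
        rw [Y124.GE.cp, Polynomial.eval_map, Polynomial.eval₂_at_natCast]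
        rfl
      show x ^ 3 + (Y124.GE.cp (a j)).eval ((t j : ℕ) : ℂ) * x + (Y124.GE.cp (b j)).eval ((t j : ℕ) : ℂ) = _
      rw [k1, k1]
      exact h1 j x
    have h01 : ∀ j, e j 0 ≠ e j 1 := by
      intro j h0
      have := h3 j
      rw [h0, sub_self, div_zero] at this
      exact Complex.slitPlane_ne_zero this rfl
    have hs : ∀ j, e j 0 + e j 1 + e j 2 = 0 := fun j => (Y124.Cv_sym (hev j)).1
    have hm := fun j => matrix_eq (e j) (v j) (h01 j) (hs j) (h2 j) ⟨h3 j, h4 j⟩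
    refine ⟨fun j => (((t j : ℕ) : ℂ), e j, v j), fun j => ⟨rfl, hev j, ⟨h3 j, h4 j⟩⟩, ?_⟩
    have h7 : Y124.GE.e3 A = fun y : Fin k × Fin 3 => Y124.pf (Y124.lam (((t y.1 : ℕ) : ℂ), e y.1, v y.1)) (v y.1) y.2 := by
      funext y
      have h8 := (hm y.1).1 y.2
      rw [← h5] at h8
      exact h8.symm
    rw [← h7]
    rw [OnlyMotivicRelations] at hno
    push Not at hno
    obtain ⟨L, hL, hLd, hno⟩ := hno
    by_cases hP : ∀ P : MvPolynomial (Fin k × Fin 2 × Fin 2) L, P.totalDegree ≤ δ →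
      MvPolynomial.aeval (fun x : Fin k × Fin 2 × Fin 2 => A x.1 x.2.1 x.2.2) P = 0 →
        ∀ g : Fin k → Matrix (Fin 2) (Fin 2) ℂ, (∀ j, (g j).det ≠ 0) → (∀ i j, (g i).det = (g j).det) →
          MvPolynomial.aeval (fun x : Fin k × Fin 2 × Fin 2 => g x.1 x.2.1 x.2.2) P = 0
    · obtain ⟨P, hP, hPc, hPv, g, hg, hgv⟩ := hno hP
      exact Y124.GE.relL_torsor hτ L hL hLd hP
        (fun s => Submodule.span_mono (fun z hz => Submodule.mem_sup_left hz) (hPc s))
        (fun j => by rw [h5 j]; exact (hm j).2) hPv hg hgv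
    · push Not at hP
      obtain ⟨P, hP, hPv, g, hg0, hgg, hgv⟩ := hP
      obtain ⟨z, hz, hgz⟩ : ∃ z : ℂ, z ≠ 0 ∧ ∀ j, (g j).det = z := by
        rcases isEmpty_or_nonempty (Fin k) with hk | ⟨⟨j0⟩⟩
        · exact ⟨1, one_ne_zero, fun j => isEmptyElim j⟩
        · exact ⟨(g j0).det, hg0 j0, fun j => hgg j j0⟩
      obtain ⟨g', hg', hgv'⟩ : ∃ g' : Fin k → Matrix (Fin 2) (Fin 2) ℂ, (∀ j, (g' j).det = 8 * Real.pi * Complex.I) ∧
          MvPolynomial.aeval (fun x : Fin k × Fin 2 × Fin 2 => g' x.1 x.2.1 x.2.2) P ≠ 0 := by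
        by_contra hno'
        push Not at hno'
        exact hgv (Y124.GE.torsor_all hL hP hτt hno' hz g hgz)
      have hev' : ∀ y : Fin k × Fin 2 × Fin 2 → ℂ, MvPolynomial.aeval y (MvPolynomial.map (algebraMap L ℂ) P) =
          MvPolynomial.aeval y P := fun y => MvPolynomial.aeval_map_algebraMap _ _ _
      refine Y124.GE.relL_torsor hτ L hL hLd (P := MvPolynomial.map (algebraMap L ℂ) P) ?_ (fun s => ?_)
        (fun j => by rw [h5 j]; exact (hm j).2) (by rw [hev']; exact hPv) hg' (by rw [hev']; exact hgv')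
      · rw [MvPolynomial.totalDegree, MvPolynomial.support_map_of_injective _ (algebraMap L ℂ).injective]
        exact hP
      · rw [MvPolynomial.coeff_map]
        have h9 : algebraMap L ℂ (P.coeff s) = (P.coeff s) • (1 : ℂ) := by
          rw [Algebra.smul_def, mul_one]
        rw [h9]
        exact Submodule.smul_mem _ _ (Submodule.subset_span (Submodule.mem_sup_right (Submodule.mem_span_singleton_self _)))
  rw [← Set.ncard_eq_toFinset_card _ hfin] at h1
  exact h1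

end Pool.Agent.Results.MP_57341d_ag.AlmostAllFibres
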