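import Pool.Agent.Y124.TH.Fin
import Pool.Agent.Y124.TD.Ap3

/-!
# The transcendence degree of the periods of ALL k-tuples of hyperelliptic curves in short windows

`f ∈ ℚ[X]` is monic of degree `n = 2g` with `n` distinct real roots, all different from `0`, and `C(z)` is the curve
`y² = f(x) (x - z)` of genus `g`. For ALL `k`-tuples of integers `t_1, …, t_k` in a short interval `[N, N + N^c]` at distance
at least `G` of each other, all number fields `K` of degree at most `D` and all bases over `K`, the transcendence degree of the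
`k (2g)²` periods of the curves `C(1/t_1), …, C(1/t_k)`, measured in degree at most `δ` with coefficients in `K` of any size, is
at least `k g (2g + 1) + 1 - s`, where `s` is at most the transcendence degree of the periods of the central fibre `C(0)`, in
particular at most `g (2g + 1) + 1`. The period conjecture predicts `k g (2g + 1) + 1` for most tuples, and this is an upper
bound for all the tuples. There are no exceptional fibres and no exceptional tuples.
-/

set_option autoImplicit false

open Polynomial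

namespace Pool.Agent.Results.MP_57341d_ag.HyperellipticAllTuples

variable {n : ℕ}

/-- the branch points: `t` inserted at place `m` in the sequence of the `a i` -/
noncomputable def branch (a : Fin n → ℝ) (m : Fin (n + 1)) (t : ℝ) : Fin (n + 1) → ℝ :=
  Fin.insertNth (α := fun _ => ℝ) m t a

/-- the period `∮ x^j dx / y`, `y² = ∏ (x - e i)`, over the loop around the segment `[e l, e (l + 1)]`, that is twice
the integral over the segment (principal branch of the square root) -/
noncomputable def period (e : Fin (n + 1) → ℝ) (l j : Fin n) : ℂ :=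
  2 * ∫ x in (e l.castSucc)..(e l.succ), (x : ℂ) ^ (j : ℕ) / (((∏ i, (x - e i) : ℝ) : ℂ) ^ (1 / 2 : ℂ))

/-- the period matrix of the curve `y² = f(x) (x - z)`, where the `a i` are the roots of `f` and `m` is the place of `z` -/
noncomputable def periodMatrix (a : Fin n → ℝ) (m : Fin (n + 1)) (z : ℝ) : Matrix (Fin n) (Fin n) ℂ :=
  Matrix.of (period (branch a m z))

/-- the coordinates: the entries of the matrix `X` and `lam` -/
def point (X : Matrix (Fin n) (Fin n) ℂ) (lam : ℂ) : Option (Fin n × Fin n) → ℂ := fun o => o.elim lam fun x => X x.1 x.2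

/-- the field generated by the periods of the central fibre `y² = f(x) x` and by `2πi` -/
noncomputable def centralField (a : Fin n → ℝ) (m : Fin (n + 1)) : IntermediateField ℚ ℂ :=
  IntermediateField.adjoin ℚ (Set.range (point (periodMatrix a m 0) (2 * Real.pi * Complex.I)))

/-- Some `r` of the entries of the matrices `P_1, …, P_k` (at `r` different places) satisfy no nonzero polynomial relation of
degree at most `δ` in each unknown with coefficients in `K`. -/
def TrdegGe {k : ℕ} (r δ : ℕ) (K : IntermediateField ℚ ℂ) (P : Fin k → Matrix (Fin n) (Fin n) ℂ) : Prop :=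
  ∃ σ : Fin r → Fin k × Fin n × Fin n, Function.Injective σ ∧ ∀ Q : MvPolynomial (Fin r) K, (∀ i, Q.degreeOf i ≤ δ) →
    MvPolynomial.aeval (fun i => P (σ i).1 (σ i).2.1 (σ i).2.2) Q = 0 → Q = 0

/-- Let `f ∈ ℚ[X]` be monic of even degree `n` with distinct real roots `a`, all different from `0`; `m` is the place of
`0` among the roots. There are `G` and `s`, at most the transcendence degree of the field of periods of the central fibre
`y² = f(x) x` and at most `n (n + 1) / 2 + 1`, such that for all `k`, `δ`, `D` there are `c > 0` and `N₀` such that for all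
`N ≥ N₀` and ALL `k`-tuples of integers `t_l` in `[N, N + N^c]` at distance at least `G` of each other: the `1 / t_l` are in the
gap of `0`, and for all number fields `K` of degree at most `D` and all invertible matrices `R_l, S_l` over `K` (changes of the
bases of homology and of the de Rham cohomology), some `k n (n + 1) / 2 + 1 - s` of the entries of the matrices
`R_l * P_l * S_l`, `P_l` the period matrix of `y² = f(x) (x - 1 / t_l)`, satisfy no nonzero polynomial relation over `K` of
degree at most `δ` in each unknown. -/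
theorem result (hn : Even n) (a : Fin n → ℝ) (f : ℚ[X])
    (hf : f.map (algebraMap ℚ ℝ) = ∏ i, (X - C (a i))) (m : Fin (n + 1)) (h0 : StrictMono (branch a m 0)) :
    ∃ G s : ℕ, (s : Cardinal) ≤ Algebra.trdeg ℚ (centralField a m) ∧ 2 * s ≤ n * (n + 1) + 2 ∧
      ∀ k δ D : ℕ, ∃ (c : ℝ) (N₀ : ℕ), 0 < c ∧ ∀ N : ℕ, N₀ ≤ N →
        ∀ t : Fin k → ℕ, (∀ l, N ≤ t l ∧ (t l : ℝ) ≤ N + (N : ℝ) ^ c) → (∀ l l', l ≠ l' → (G : ℤ) ≤ |(t l : ℤ) - t l'|) →
          (∀ l, StrictMono (branch a m (1 / (t l : ℝ)))) ∧
          ∀ (K : IntermediateField ℚ ℂ) [FiniteDimensional ℚ K], Module.finrank ℚ K ≤ D →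
            ∀ R S : Fin k → (Matrix (Fin n) (Fin n) K)ˣ,
              TrdegGe (k * (n * (n + 1) / 2) + 1 - s) δ K fun l =>
                (R l : Matrix (Fin n) (Fin n) K).map (algebraMap K ℂ) * periodMatrix a m (1 / (t l : ℝ)) *
                  (S l : Matrix (Fin n) (Fin n) K).map (algebraMap K ℂ) := by
  obtain ⟨G0, s, hs1, hs2, hmain⟩ := Pool.Agent.Y124.TH.main hn a f hf m h0
  refine ⟨G0, s, ?_, hs2, fun k δ D => ?_⟩
  · have hfield : centralField a m = IntermediateField.adjoin ℚ (Set.range (Pool.Agent.Y118.HP.pt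
        (fun _ : Fin 1 => Matrix.of (Pool.Agent.Y118.HP.cper (Pool.Agent.Y118.HP.er a m 0))) (2 * Real.pi * Complex.I))) := by
      unfold centralField
      congr 1
      ext x
      constructor
      · rintro ⟨_ | ⟨i, j⟩, rfl⟩
        · exact ⟨none, rfl⟩
        · exact ⟨some (0, i, j), rfl⟩
      · rintro ⟨_ | ⟨l, i, j⟩, rfl⟩
        · exact ⟨none, rfl⟩
        · exact ⟨some (i, j), rfl⟩
    rw [hfield]
    exact hs1
  obtain ⟨E, hE⟩ := hmain k δ D
  obtain ⟨c, N₀, hc, hw⟩ := Pool.Agent.Y124.TD.window E 0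
  refine ⟨c, N₀, hc, fun N hN t ht hsep => ?_⟩
  have hle : ∀ j, t j ≤ N + ⌊(N : ℝ) ^ c⌋₊ := by
    intro j
    have h1 := (ht j).2
    have h2 : ((t j - N : ℕ) : ℝ) ≤ (N : ℝ) ^ c := by
      rw [Nat.cast_sub (ht j).1]
      linarith
    have h3 := Nat.le_floor h2
    have := (ht j).1
    omega
  set H := ⌊(N : ℝ) ^ c⌋₊ with hH
  have hTg : ∀ l, ((N + H : ℕ) : ℝ) - ((N + H - t l : ℕ) : ℝ) = t l := fun l => by
    rw [Nat.cast_sub (hle l)]
    ring
  obtain ⟨-, h1⟩ := hE H (N + H) ((hw N hN).trans (Nat.le_add_right _ _))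
  obtain ⟨h2, h3⟩ := h1 (fun l => N + H - t l) (fun l l' hll => by
      have h4 := hsep l l' hll
      have h5 := hle l
      have h6 := hle l'
      have h7 : ((N + H - t l : ℕ) : ℤ) - ((N + H - t l' : ℕ) : ℤ) = (t l' : ℤ) - t l := by omega
      rw [h7, abs_sub_comm]
      exact h4) (fun l => by
      have := (ht l).1
      omega)
  refine ⟨fun l => ?_, fun K _ hK R S => ?_⟩
  · have h4 := h2 l
    rw [hTg] at h4
    exact h4
  set P : Fin k → Matrix (Fin n) (Fin n) ℂ := fun l => (R l : Matrix (Fin n) (Fin n) K).map (algebraMap K ℂ) *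
    periodMatrix a m (1 / (t l : ℝ)) * (S l : Matrix (Fin n) (Fin n) K).map (algebraMap K ℂ) with hP
  obtain ⟨σ, hσ, hLI⟩ := h3 K hK (fun x => P x.1 x.2.1 x.2.2) (fun V hV l i j => by
    rw [hTg]
    have h4 : ∀ i j, ((R l : Matrix (Fin n) (Fin n) K).map (algebraMap K ℂ) * periodMatrix a m (1 / (t l : ℝ)) *
        (S l : Matrix (Fin n) (Fin n) K).map (algebraMap K ℂ)) i j ∈ V := fun i j => hV (l, i, j)
    have hR : (((R l)⁻¹ : (Matrix (Fin n) (Fin n) K)ˣ) : Matrix (Fin n) (Fin n) K).map (algebraMap K ℂ) *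
        (R l : Matrix (Fin n) (Fin n) K).map (algebraMap K ℂ) = 1 := by
      rw [← Matrix.map_mul, Units.inv_mul, Matrix.map_one _ (map_zero _) (map_one _)]
    have hS : (S l : Matrix (Fin n) (Fin n) K).map (algebraMap K ℂ) *
        (((S l)⁻¹ : (Matrix (Fin n) (Fin n) K)ˣ) : Matrix (Fin n) (Fin n) K).map (algebraMap K ℂ) = 1 := by
      rw [← Matrix.map_mul, Units.mul_inv, Matrix.map_one _ (map_zero _) (map_one _)]
    exact Pool.Agent.Y124.TG.mem_of_mul hR hS h4 i j)
  exact ⟨σ, hσ, fun Q hQ h5 => Pool.Agent.Y124.TD.LIb.mv hLI Q hQ h5⟩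

end Pool.Agent.Results.MP_57341d_ag.HyperellipticAllTuples
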