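import Pool.Agent.Y119.HY.Fin2

/-!
# Periods of hypergeometric motives of Calabi–Yau type: for almost all fibres all relations of bounded degree between
the periods come from the symplectic group

Let `β_1, …, β_m` be rational numbers which are not integers, `n = 2m` and `θ = z d/dz`. The hypergeometric operator
`θ^n - z ∏_j (θ - β_j) (θ + β_j)` has maximally unipotent monodromy at `z = 0`. For `m = 1` its solutions are periods of
families of elliptic curves, for `m = 2` and `β = (1/5, 2/5)` it is contiguous to the operator of the mirror quintic.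
The Frobenius method gives the basis `f_0, …, f_{n-1}` of solutions. The periods of the fibres of the corresponding
family of motives over `ℚ(z)` near `z = 0` are linear combinations of the numbers `(θ^i f_j)(z)` with constant
coefficients (the periods of the limit motive). We prove that for almost all tuples of fibres `z = 1 / t_i` all
relations of bounded degree, over any finite dimensional space of constants, follow from the fact that the period
matrices lie in the symplectic groups.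
-/

set_option autoImplicit false

open PowerSeries Pool.Agent.Y119.HZ

namespace Pool.Agent.Results.MP_57341d_ag.HypergeometricSymplectic

/-- the power series `k + ε` in the variable `ε` -/
noncomputable def shift (k : ℕ) : PowerSeries ℚ := C (k : ℚ) + X

/-- `a_k(ε) = ∏_{l < k} ∏_j ((l + ε)^2 - β_j^2) / (l + 1 + ε)^(2m)`. The series `∑_k a_k(ε) z^(k + ε)` solves the
equation `(θ^n - z ∏_j (θ^2 - β_j^2)) f = ε^n z^ε`, hence its coefficients `f_j` at `ε^j` with `j < n = 2m` are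
solutions of the homogeneous equation. -/
noncomputable def frob {m : ℕ} (β : Fin m → ℚ) (k : ℕ) : PowerSeries ℚ :=
  ∏ l ∈ Finset.range k, ((∏ j, (shift l ^ 2 - C (β j ^ 2))) * ((shift (l + 1))⁻¹) ^ (2 * m))

/-- The matrix with the entries `(θ^i f_j)(1 / t)`, where `f_j(z)` is the coefficient of `ε^j` in the series
`∑_k a_k(ε) z^(k + ε)`, `z^ε = ∑_l (log z)^l ε^l / l!`. -/
noncomputable def Y {m : ℕ} (β : Fin m → ℚ) (t : ℕ) : Matrix (Fin (2 * m)) (Fin (2 * m)) ℂ :=
  Matrix.of fun i j => ∑ l ∈ Finset.range ((j : ℕ) + 1), ((Real.log (1 / t) ^ l / l.factorial : ℝ) : ℂ) *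
    ∑' k : ℕ, ((coeff ((j : ℕ) - l) (shift k ^ (i : ℕ) * frob β k) : ℚ) : ℂ) * (1 / (t : ℂ)) ^ k

/-- the polynomial `∏_j (x^2 - β_j^2)` -/
noncomputable def poly {m : ℕ} (β : Fin m → ℚ) : Polynomial ℚ := ∏ j, (Polynomial.X ^ 2 - Polynomial.C (β j ^ 2))

/-- The matrix of the intersection form: the entry `(i, j)` is `(-1)^i q_{i+j+1-n}` for `i + j + 1 ≥ n` and `0`
otherwise, where `q_l` are the coefficients of `∏_j (x^2 - β_j^2)`. -/
noncomputable def J {m : ℕ} (β : Fin m → ℚ) : Matrix (Fin (2 * m)) (Fin (2 * m)) ℂ :=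
  Matrix.of fun i j => if 2 * m ≤ (i : ℕ) + j + 1 then (((-1) ^ (i : ℕ) * (poly β).coeff (i + j + 1 - 2 * m) : ℚ) : ℂ) else 0

/-- the symplectic group of the form `J` -/
def Sp {m : ℕ} (β : Fin m → ℚ) : Set (Matrix (Fin (2 * m)) (Fin (2 * m)) ℂ) := {g | g.transpose * J β * g = J β}

/-- the point with the coordinates `l_i` and the entries of the matrices `X_i` -/
def point {k : ℕ} {m : Fin k → ℕ} (l : Fin k → ℂ) (X : ∀ i, Matrix (Fin (2 * m i)) (Fin (2 * m i)) ℂ) :
    (Σ i : Fin k, Option (Fin (2 * m i) × Fin (2 * m i))) → ℂ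
  | ⟨i, none⟩ => l i
  | ⟨i, some p⟩ => X i p.1 p.2

/-- There is a polynomial relation of degree `≤ δ` with coefficients in `V` between the numbers `log t_i` and the
entries of the matrices `Y_i(1 / t_i) Ω_i` which does not vanish identically on `ℂ^k × ∏_i Sp(J_i) Ω_i`. -/
def Exceptional (δ : ℕ) (V : Submodule ℚ ℂ) {k : ℕ} {m : Fin k → ℕ} (β : ∀ i, Fin (m i) → ℚ)
    (Ω : ∀ i, Matrix (Fin (2 * m i)) (Fin (2 * m i)) ℂ) (t : Fin k → ℕ) : Prop :=
  ∃ P : MvPolynomial (Σ i : Fin k, Option (Fin (2 * m i) × Fin (2 * m i))) ℂ,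
    P.totalDegree ≤ δ ∧ (∀ s, P.coeff s ∈ V) ∧
    MvPolynomial.aeval (point (fun i => ((Real.log (t i) : ℝ) : ℂ)) fun i => Y (β i) (t i) * Ω i) P = 0 ∧
    ∃ (l : Fin k → ℂ) (g : ∀ i, Matrix (Fin (2 * m i)) (Fin (2 * m i)) ℂ), (∀ i, g i ∈ Sp (β i)) ∧
      MvPolynomial.aeval (point l fun i => g i * Ω i) P ≠ 0

theorem shift_eq (k : ℕ) : shift k = Pool.Agent.Y119.HY.kx k := rfl

theorem frob_eq {m : ℕ} (β : Fin m → ℚ) (k : ℕ) : frob β k = Pool.Agent.Y119.HY.aq (2 * m) (Pool.Agent.Y119.HY.QB β) k := by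
  unfold frob Pool.Agent.Y119.HY.aq
  refine Finset.prod_congr rfl fun l _ => ?_
  congr 1
  unfold Pool.Agent.Y119.HY.QB
  rw [map_prod]
  refine Finset.prod_congr rfl fun j _ => ?_
  simp only [map_sub, map_pow, Polynomial.aeval_X, Polynomial.aeval_C]
  rfl

theorem J_eq {m : ℕ} (β : Fin m → ℚ) :
    J β = Pool.Agent.Y119.HY.cm (Pool.Agent.Y119.HY.Jm (2 * m) (Pool.Agent.Y119.HY.QB β)) := by
  ext i j
  rw [Pool.Agent.Y119.HY.cm_apply]
  unfold J Pool.Agent.Y119.HY.Jm
  rw [Matrix.of_apply, Matrix.of_apply]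
  split_ifs
  · rfl
  · simp

theorem Y_eq {m : ℕ} (β : Fin m → ℚ) (t : ℕ) : Y β t = Yt (2 * m) (Pool.Agent.Y119.HY.QB β) t := by
  ext i j
  unfold Y Yt
  rw [Matrix.of_apply, Matrix.mul_apply]
  have hE : ∀ c : Fin (2 * m), Pool.Agent.Y119.HY.E (Pool.Agent.Y119.HY.cm (Pool.Agent.Y119.HY.Am (2 * m)))
      (-((Real.log t : ℝ) : ℂ)) c j = ∑ l ∈ Finset.range (2 * m),
        if (j : ℕ) = c + l then ((Real.log (1 / t) ^ l / l.factorial : ℝ) : ℂ) else 0 := by
    intro c
    unfold Pool.Agent.Y119.HY.E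
    rw [Matrix.sum_apply]
    refine Finset.sum_congr rfl fun l _ => ?_
    rw [Matrix.smul_apply, ← Pool.Agent.Y119.HY.cm_pow, Pool.Agent.Y119.HY.cm_apply, Pool.Agent.Y119.HY.Am_pow, smul_eq_mul,
      one_div, Real.log_inv]
    split_ifs
    · push_cast
      ring
    · simp
  simp only [hE, Finset.mul_sum]
  rw [Finset.sum_comm]
  have hsub : Finset.range ((j : ℕ) + 1) ⊆ Finset.range (2 * m) := by
    intro l hl
    rw [Finset.mem_range] at hl ⊢
    have := j.2
    omega
  refine Finset.sum_subset_zero_on_sdiff hsub (fun l hl => ?_) fun l hl => ?_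
  · rw [Finset.mem_sdiff, Finset.mem_range, Finset.mem_range] at hl
    refine Finset.sum_eq_zero fun c _ => ?_
    rw [if_neg (by omega), mul_zero]
  · rw [Finset.mem_range] at hl
    have hj := j.2
    rw [Finset.sum_eq_single (⟨(j : ℕ) - l, by omega⟩ : Fin (2 * m))]
    · rw [if_pos (by simp only; omega), mul_comm]
      congr 1
      unfold Pool.Agent.Y119.HY.Hf Pool.Agent.Y119.HY.ps
      rw [Matrix.of_apply]
      refine tsum_congr fun k => ?_
      show _ = ((Pool.Agent.Y119.HY.hq (2 * m) (Pool.Agent.Y119.HY.QB β) k i ((j : ℕ) - l) : ℚ) : ℂ) *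
        (((1 / (t : ℝ) : ℝ)) : ℂ) ^ k
      rw [frob_eq, shift_eq]
      unfold Pool.Agent.Y119.HY.hq
      push_cast
      rfl
    · intro c _ hc
      rw [if_neg, mul_zero]
      intro h
      apply hc
      apply Fin.ext
      simp only
      omega
    · intro h
      exact absurd (Finset.mem_univ _) h

theorem point_eq {k : ℕ} {m : Fin k → ℕ} (l : Fin k → ℂ) (X : ∀ i, Matrix (Fin (2 * m i)) (Fin (2 * m i)) ℂ) :
    point l X = pw (n := fun i => 2 * m i) l X := by
  funext v
  obtain ⟨i, _ | p⟩ := v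
  · rfl
  · rfl

/-- Let `β_i`, `1 ≤ i ≤ k`, be finite non-empty families of rational numbers which are not integers, and let `J_i` and
`Y_i` be the alternating forms and the period matrices of the hypergeometric equations
`(θ^(2 m_i) - z ∏_j (θ^2 - β_{i,j}^2)) f = 0`. Then the forms `J_i` are alternating and non-degenerate, the matrices
`Y_i(1 / t)` lie in the symplectic group `Sp(J_i)` for `t ≥ 2`, and for all `δ` and `D` there are `c > 0` and `C` such
that for every `ℚ`-space `V` of complex numbers of dimension `≤ D`, all complex matrices `Ω_i` and every box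
`∏_i (x_i, x_i + N]` with `x_i ≥ 1` the following holds for all but `C N^(k-1) ∑_i (1 + N / (x_i + N)^c)` integral
points `t` of the box: every polynomial relation of degree `≤ δ` with coefficients in `V` between the numbers `log t_i`
and the entries of the matrices `Y_i(1 / t_i) Ω_i` vanishes identically on `ℂ^k × ∏_i Sp(J_i) Ω_i`. -/
theorem result (k : ℕ) (m : Fin k → ℕ) (hm : ∀ i, 1 ≤ m i) (β : ∀ i, Fin (m i) → ℚ)
    (hβ : ∀ i j, ∀ a : ℤ, β i j ≠ a) :
    (∀ i, (J (β i)).transpose = -J (β i) ∧ (J (β i)).det ≠ 0 ∧ ∀ t : ℕ, 2 ≤ t → Y (β i) t ∈ Sp (β i)) ∧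
    ∀ δ D : ℕ, ∃ c C : ℝ, 0 < c ∧ ∀ V : Submodule ℚ ℂ, Module.Finite ℚ V → Module.finrank ℚ V ≤ D →
      ∀ (Ω : ∀ i, Matrix (Fin (2 * m i)) (Fin (2 * m i)) ℂ) (x : Fin k → ℕ) (N : ℕ), (∀ i, 1 ≤ x i) → 1 ≤ N →
      (({t : Fin k → ℕ | (∀ i, x i < t i ∧ t i ≤ x i + N) ∧ Exceptional δ V β Ω t}.ncard : ℕ) : ℝ) ≤
        C * (N : ℝ) ^ (k - 1) * ∑ i, (1 + N / ((x i : ℝ) + N) ^ c) := by
  classical
  have hβ' : ∀ i, ∀ j, ∀ l : ℕ, (l : ℚ) + β i j ≠ 0 ∧ (l : ℚ) + -β i j ≠ 0 := by
    intro i j l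
    constructor
    · intro h
      apply hβ i j (-(l : ℤ))
      push_cast
      linear_combination h
    · intro h
      apply hβ i j (l : ℤ)
      push_cast
      linear_combination -h
  have hQ := fun i => QD_QB (hm i) (hβ' i)
  refine ⟨fun i => ⟨?_, ?_, fun t ht => ?_⟩, fun δ D => ?_⟩
  · rw [J_eq]
    exact Pool.Agent.Y119.HY.Jc_skew (hQ i)
  · rw [J_eq]
    exact Pool.Agent.Y119.HY.Jc_det (hQ i)
  · show (Y (β i) t).transpose * J (β i) * Y (β i) t = J (β i)
    rw [J_eq, Y_eq]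
    exact Yt_form (hQ i) ht
  obtain ⟨c, C, hc, -, hmain⟩ := hyp_tuples_log k δ D (fun i => 2 * m i) (fun i => Pool.Agent.Y119.HY.QB (β i)) hQ
    (fun i a b => Pool.Agent.Y119.HY.sdc_hps (hβ' i) (hQ i) a b)
  refine ⟨c, C, hc, ?_⟩
  intro V hVf hV Ω x N hx hN
  set S := {t : Fin k → ℕ | (∀ i, x i < t i ∧ t i ≤ x i + N) ∧ Exceptional δ V β Ω t} with hS
  have hfin : S.Finite := by
    refine (Set.finite_Iic (fun i : Fin k => x i + N)).subset ?_
    intro t ht i
    exact (ht.1 i).2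
  rw [Set.ncard_eq_toFinset_card S hfin]
  refine hmain V hV Ω x N hx hN _ fun t ht => ?_
  have ht' : t ∈ S := hfin.mem_toFinset.1 ht
  obtain ⟨hbox, P, h1, h2, h3, l, g, hg, h4⟩ := ht'
  refine ⟨hbox, P, h1, h2, ?_, l, g, fun i => ?_, ?_⟩
  · rw [point_eq] at h3
    simp only [Y_eq] at h3
    exact h3
  · have h5 : (g i).transpose * J (β i) * g i = J (β i) := hg i
    rw [J_eq] at h5
    exact h5
  · rw [point_eq] at h4
    exact h4

end Pool.Agent.Results.MP_57341d_ag.HypergeometricSymplectic
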